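import Pool.Agent.H23.Tr1
import Pool.Agent.H23.TrDefs

set_option autoImplicit false

namespace Pool.Agent.Results.MP_95c4c5_lc.FPT
open List Pool.Agent.H11.PT Pool.Agent.H25.FP Pool.Agent.H24.Bz Pool.Agent.H23.Tr Pool.Agent.H23.F3
open Pool.Agent.H25.BN Polynomial

theorem pad {α β : Type} [Enc α] [Enc β] {μ : α → ℕ} {g : α → β} (hg : RM μ bits g) {e : β → ℕ}
    (he : PT e) : RM (fun x => μ x + sz (g x) + 2 ^ e (g x)) bits fun x => (g x, 2 ^ e (g x)) := by
  obtain ⟨P, q, h⟩ := hg
  obtain ⟨P', q', h'⟩ := pad1 he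
  refine ⟨.seq P P', q + q', fun x => ((h x).seq (h' _)).mono ?_⟩
  rw [eval_add]
  exact add_le_add (ev_mono _ (by simp only [add_assoc]; exact Nat.le_add_right _ _))
    (ev_mono _ (by simp only [add_assoc]; exact Nat.le_add_left _ _))

def dt (a x : List ℤ) : ℤ := ((range a.length).map fun k => a.getD k 0 * x.getD k 0).sum

def gg (A : List (List ℤ)) (φ : ℕ) (x : List ℤ) : ℤ :=
  if φ < A.length then dt (A.getD φ []) x else -dt (A.getD (φ - A.length) []) x

theorem dist_le (A : List (List ℤ)) (x y : List ℤ) {c : ℤ} : H23.Tr.dist A x y ≤ c ↔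
    ∀ φ < 2 * A.length + 1, gg A φ x - gg A φ y ≤ c := by
  have : ∀ L : List ℤ, L.foldr max 0 ≤ c ↔ 0 ≤ c ∧ ∀ a ∈ L, a ≤ c := fun L => by
    induction L <;> simp [*]; tauto
  have e : ∀ a : List ℤ, ((range a.length).map fun k => a.getD k 0 * (x.getD k 0 - y.getD k 0)).sum =
      dt a x - dt a y := fun a => by
    unfold dt
    induction range a.length <;> simp [*, -getD_eq_getElem?_getD]; ring
  simp only [H23.Tr.dist, this, forall_mem_map, e, abs_le, gg]
  refine ⟨fun h φ b => ?_, fun h => ⟨by simpa [two_mul, dt] using h (2 * A.length) (by omega),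
    fun a m => ?_⟩⟩
  · split_ifs with d
    · rw [getD_eq_getElem _ _ d]; exact (h.2 _ (getElem_mem _)).2
    · by_cases f : φ - A.length < A.length
      · have := (h.2 _ (getElem_mem f)).1
        rw [getD_eq_getElem _ _ f]; omega
      · rw [getD_eq_default _ _ (by omega)]; simp [dt, h.1]
  · obtain ⟨i, b, rfl⟩ := getElem_of_mem m
    have := h i (by omega)
    have := h (A.length + i) (by omega)
    simp [b] at *; omega

theorem dist_ex (A : List (List ℤ)) (x y : List ℤ) :
    ∃ φ < 2 * A.length + 1, H23.Tr.dist A x y ≤ gg A φ x - gg A φ y := by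
  obtain ⟨φ, a, b⟩ := (Finset.range (2 * A.length + 1)).exists_max_image
    (fun φ => gg A φ x - gg A φ y) (by simp)
  exact ⟨φ, by simpa using a, (dist_le ..).2 (by simpa using b)⟩

def wt (A P : List (List ℤ)) (i s : ℕ) : ℤ :=
  if s % 3 = 0 then gg A (s / 3 % (2 * A.length + 1)) (P.getD i []) -
    gg A (s / 3 / (2 * A.length + 1) / (2 * A.length + 1)) (P.getD i [])
  else if s % 3 = 1 then gg A (s / 3 / (2 * A.length + 1) % (2 * A.length + 1)) (P.getD i []) -
    gg A (s / 3 % (2 * A.length + 1)) (P.getD i [])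
  else gg A (s / 3 / (2 * A.length + 1) / (2 * A.length + 1)) (P.getD i []) -
    gg A (s / 3 / (2 * A.length + 1) % (2 * A.length + 1)) (P.getD i [])

def tt (f : ℕ) : ℕ := (2 * f + 1) * ((2 * f + 1) * (2 * f + 1))

def w3 (A P : List (List ℤ)) (q : ℕ × ℕ × ℕ) (τ : ℕ) : ℤ :=
  wt A P q.1 (3 * τ) + wt A P q.2.1 (3 * τ + 1) + wt A P q.2.2 (3 * τ + 2)

variable {A P : List (List ℤ)}

theorem w3_eq (q : ℕ × ℕ × ℕ) (τ : ℕ) {F : ℕ} (e : F = 2 * A.length + 1) : w3 A P q τ =
    (gg A (τ % F) (P.getD q.1 []) - gg A (τ % F) (P.getD q.2.1 [])) +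
    (gg A (τ / F % F) (P.getD q.2.1 []) - gg A (τ / F % F) (P.getD q.2.2 [])) +
    (gg A (τ / F / F) (P.getD q.2.2 []) - gg A (τ / F / F) (P.getD q.1 [])) := by
  simp only [w3, wt, ← e, show (3 * τ + 1) / 3 = τ by omega, show (3 * τ + 2) / 3 = τ by omega,
    show 3 * τ / 3 = τ by omega, show (3 * τ + 1) % 3 = 1 by omega, show (3 * τ + 2) % 3 = 2 by omega,
    Nat.mul_mod_right]
  simp; ring

theorem w3_le (q : ℕ × ℕ × ℕ) {τ : ℕ} (h : τ < tt A.length) : w3 A P q τ ≤ per A P q := by
  rw [w3_eq q τ rfl]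
  exact add_le_add (add_le_add ((dist_le ..).1 le_rfl _ (Nat.mod_lt _ (by omega)))
    ((dist_le ..).1 le_rfl _ (Nat.mod_lt _ (by omega)))) ((dist_le ..).1 le_rfl _
    (Nat.div_lt_of_lt_mul (Nat.div_lt_of_lt_mul h)))

theorem w3_ex (q : ℕ × ℕ × ℕ) : ∃ τ < tt A.length, per A P q ≤ w3 A P q τ := by
  obtain ⟨a, a1, a2⟩ := dist_ex A (P.getD q.1 []) (P.getD q.2.1 [])
  obtain ⟨b, b1, b2⟩ := dist_ex A (P.getD q.2.1 []) (P.getD q.2.2 [])
  obtain ⟨c, c1, c2⟩ := dist_ex A (P.getD q.2.2 []) (P.getD q.1 [])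
  obtain ⟨F, e⟩ : ∃ F, F = 2 * A.length + 1 := ⟨_, rfl⟩
  have d : ∀ x y, x < F → (x + F * y) / F = y := fun x y h => by
    rw [Nat.add_mul_div_left _ _ (by omega), Nat.div_eq_of_lt h, zero_add]
  rw [← e] at a1 b1 c1
  refine ⟨a + F * (b + F * c), ?_, ?_⟩
  · have := Nat.mul_le_mul_left F (Nat.succ_le_of_lt c1)
    have := Nat.mul_le_mul_left F (show b + F * c + 1 ≤ F * F by nlinarith)
    rw [tt, ← e]; nlinarith
  · rw [w3_eq q _ e, d _ _ a1, d _ _ b1, Nat.add_mul_mod_self_left, Nat.add_mul_mod_self_left,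
      Nat.mod_eq_of_lt a1, Nat.mod_eq_of_lt b1]
    exact add_le_add (add_le_add a2 b2) c2

theorem to_slots {N : ℕ} {Q : List (ℕ × ℕ × ℕ)} (h : IsPart N Q) : ∃ z : List ℕ, z.length = N ∧
    (∀ s ∈ z, s < 3 * tt A.length) ∧ bal (tt A.length) z ∧
    (Q.map (per A P)).sum ≤ val (wt A P) z := by
  choose τ t1 t2 using w3_ex (A := A) (P := P)
  obtain ⟨S, hS⟩ : ∃ S, S = Q.flatMap fun q => [(q.1, 3 * τ q), (q.2.1, 3 * τ q + 1),
    (q.2.2, 3 * τ q + 2)] := ⟨_, rfl⟩
  obtain ⟨S', e, p⟩ := (congrFun₂ (eq_map_comp_perm Prod.fst) (range N) S).ge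
    (by simpa [hS, map_flatMap] using h.symm)
  have l : (S'.map Prod.snd).length = N := by simpa using (congrArg length e).symm
  refine ⟨S'.map Prod.snd, l, fun s m => ?_, fun σ _ => ?_, ?_⟩
  · have := (p.map _).subset m
    simp only [hS, map_flatMap, mem_flatMap] at this
    obtain ⟨q, -, m⟩ := this
    have := t1 q
    simp at m; omega
  · simp only [(p.map _).count_eq, hS]
    clear h hS
    induction Q with
    | nil => simp
    | cons q Q ih => simp only [flatMap_cons, map_append, count_append] at ih ⊢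
                     simp [count_cons] at ih ⊢; split_ifs <;> omega
  · rw [val, l, e, zip_map', map_map, (p.map _).sum_eq, hS]
    clear h hS
    induction Q with
    | nil => simp
    | cons q Q ih => have := t2 q; simp [w3] at *; omega

def cls (z : List ℕ) (s : ℕ) : List ℕ := (range z.length).filter fun i => z.getD i 0 == s

def tri (t : ℕ) (z : List ℕ) : List (ℕ × ℕ × ℕ) := (range t).flatMap fun τ =>
  (cls z (3 * τ)).zip ((cls z (3 * τ + 1)).zip (cls z (3 * τ + 2)))

theorem tri_ok {z : List ℕ} (h : ∀ s ∈ z, s < 3 * tt A.length) (b : bal (tt A.length) z) :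
    IsPart z.length (tri (tt A.length) z) ∧
      val (wt A P) z ≤ ((tri (tt A.length) z).map (per A P)).sum := by
  have l : ∀ s, (cls z s).length = z.count s := fun s => by
    conv_rhs => rw [← as_map z, count, countP_map, countP_eq_length_filter]
    rfl
  have z3 : ∀ a b c : List ℕ, a.length = b.length → a.length = c.length →
      (a.zip (b.zip c)).flatMap (fun q => [q.1, q.2.1, q.2.2]) ~ a ++ b ++ c := fun a => by
    induction a with
    | nil => intro b c e f; simp [length_eq_zero_iff.1 e.symm, length_eq_zero_iff.1 f.symm]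
    | cons x a ih =>
      rintro (_ | ⟨y, b⟩) (_ | ⟨z, c⟩) e f <;> simp at e f
      exact perm_iff_count.2 fun u => by
        have := (ih b c e f).count_eq u
        simp [count_cons] at this ⊢; omega
  have p : IsPart z.length (tri (tt A.length) z) := by
    have : ∀ t ≤ tt A.length, (tri t z).flatMap (fun q => [q.1, q.2.1, q.2.2]) ~
        (range z.length).filter fun i => z.getD i 0 < 3 * t := fun t => by
      induction t with
      | zero => simp [tri]
      | succ t ih =>
        intro e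
        have b := b t (mem_range.2 e)
        rw [tri, range_succ, flatMap_append, flatMap_append, flatMap_singleton]
        refine ((ih (by omega)).append (z3 _ _ _ (by simp [l, b.1]) (by simp [l, b.2]))).trans ?_
        unfold cls
        induction range z.length with
        | nil => simp
        | cons i I ih => exact perm_iff_count.2 fun u => by
                           have := ih.count_eq u
                           simp only [filter_cons, count_append, decide_eq_true_eq, beq_iff_eq] at this ⊢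
                           split_ifs <;> (try simp only [count_cons]) <;> omega
    refine (this _ le_rfl).trans (.of_eq (filter_eq_self.2 fun i m => ?_))
    rw [getD_eq_getElem _ _ (mem_range.1 m)]
    simpa using h _ (getElem_mem _)
  refine ⟨p, ?_⟩
  have k : ∀ q ∈ tri (tt A.length) z, wt A P q.1 (z.getD q.1 0) + wt A P q.2.1 (z.getD q.2.1 0) +
      wt A P q.2.2 (z.getD q.2.2 0) ≤ per A P q := fun q m => by
    obtain ⟨τ, a, m⟩ := mem_flatMap.1 m
    have := of_mem_zip m
    have a1 := (mem_filter.1 this.1).2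
    have a2 := (mem_filter.1 (of_mem_zip this.2).1).2
    have a3 := (mem_filter.1 (of_mem_zip this.2).2).2
    rw [beq_iff_eq] at a1 a2 a3
    rw [a1, a2, a3]
    exact w3_le q (mem_range.1 a)
  conv_lhs => rw [← as_map z, val_map, ← (Perm.map _ p).sum_eq]
  clear p
  generalize tri _ z = Q at k
  induction Q with
  | nil => simp
  | cons q Q ih => rw [forall_mem_cons] at k; have := ih k.2; have := k.1; simp at *; omega

abbrev I := List (List ℤ) × List (List ℤ)

section
variable {α : Type} [Enc α] {A P : α → List (List ℤ)} (hA : PT A) (hP : PT P)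
include hA hP

@[fun_prop] theorem tval {z : α → List ℕ} (hz : PT z) : PT fun x => val (wt (A x) (P x)) (z x) := by
  unfold val wt gg dt; fun_prop

@[fun_prop] theorem tbest {L : α → List (List ℕ)} (hL : PT L) :
    PT fun x => best (wt (A x) (P x)) (L x) := by unfold best; fun_prop

omit hA hP in
theorem szl (z : List ℕ) (k m : ℕ) (a : z.length ≤ k) (b : ∀ s ∈ z, s < m) :
    sz z ≤ sz (replicate k m) := sz_list_le _ _ _ a fun s c => by have := b s c; simp; omega

theorem tstep {m R a k : α → ℕ} {o : α → List ℕ} (hm : PT m) (hR : PT R) (ha : PT a) (hk : PT k)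
    (ho : PT o) : PT fun x => (step (wt (A x) (P x)) (m x) (R x) (a x) (o x))^[k x] [[]] :=
  pt_iter hk (by fun_prop) (by unfold step; fun_prop)
    (fun x => sz (replicate (a x + 1) (replicate (k x) (m x)))) (by fun_prop)
    fun y j e => sz_list_le _ _ _ (step_inv j).1 fun z c =>
      szl _ _ _ (((step_inv j).2 z c).1.le.trans e) ((step_inv j).2 z c).2

@[fun_prop] theorem tstage {t R a : α → ℕ} {o : α → List ℕ} (ht : PT t) (hR : PT R) (ha : PT a)
    (ho : PT o) : PT fun x => stage (wt (A x) (P x)) (t x) (R x) (a x) (o x) :=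
  PT.optGetD (tbest hA hP (PT.filter (tstep hA hP (by fun_prop) hR ha (by fun_prop) (by fun_prop))
    (by unfold H23.Tr.bal; fun_prop))) (by fun_prop)

end

theorem pt_alg : PT fun y : ((I × ℕ) × ℕ) × ℕ => tri (tt y.1.1.1.1.length)
    ((stage (wt y.1.1.1.1 y.1.1.1.2) (tt y.1.1.1.1.length) y.1.2 y.2)^[y.1.1.1.2.length / 3] []) := by
  have h0 : PT tt := by unfold tt; fun_prop
  have h4 : PT fun y : ((I × ℕ) × ℕ) × ℕ =>
      (stage (wt y.1.1.1.1 y.1.1.1.2) (tt y.1.1.1.1.length) y.1.2 y.2)^[y.1.1.1.2.length / 3] [] :=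
    pt_iter (by fun_prop) (by fun_prop) (by fun_prop)
      (fun y => sz (replicate y.1.1.1.2.length (3 * tt y.1.1.1.1.length))) (by fun_prop)
      fun y k e => by
        have := stage_inv (w := wt y.1.1.1.1 y.1.1.1.2) (R := y.1.2) (a := y.2)
          (show 0 < tt y.1.1.1.1.length by unfold tt; positivity) k
        exact szl _ _ _ (by omega) this.2.1
  have h5 : PT fun y : ℕ × List ℕ => tri y.1 y.2 := by unfold tri cls; fun_prop
  exact h5.comp (PT.pair (by fun_prop) h4)

theorem result : FPTsol Max3DM fun I => I.1.length := by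
  have h0 : PT tt := by unfold tt; fun_prop
  obtain ⟨P, q, h⟩ := RM.comp (fun x => by simp only [add_assoc]; exact Nat.le_add_right _ _) pt_alg (pad (pad
    (pad1 (e := fun x : I => 2 * tt x.1.length) (by fun_prop)) (e := fun y => 2 * y.2) (by fun_prop))
    (e := fun y => (2 * y.2 + 1 + 3 * tt y.1.1.1.length) * (2 * y.2 + 1 + 3 * tt y.1.1.1.length))
    (by fun_prop))
  obtain ⟨c, d, k⟩ := poly_bound (q.comp (C 9 * X))
  have p0 : Primrec fun f => 2 * f + 1 := Primrec.succ.comp (Primrec.nat_mul.comp (.const 2) .id)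
  have p1 : Primrec tt := Primrec.nat_mul.comp p0 (Primrec.nat_mul.comp p0 p0)
  have p2 := prim_pow.comp (.const 2) (Primrec.nat_mul.comp (.const 2) p1)
  have p3 := prim_pow.comp (.const 2) (Primrec.nat_mul.comp (.const 2) p2)
  have p4 := Primrec.nat_add.comp (p0.comp p3) (Primrec.nat_mul.comp (.const 3) p1)
  have p5 := Primrec.nat_add.comp (Primrec.nat_add.comp (Primrec.nat_mul.comp (.const 2) p2) p3)
    (Primrec.succ.comp (prim_pow.comp (.const 2) (Primrec.nat_mul.comp p4 p4)))
  refine ⟨_, ⟨mach P, .refl _, .refl _⟩, _, d, (Primrec.nat_mul.comp (.const c) (prim_pow.comp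
    (Primrec.succ.comp p5) (.const d))).to_comp, fun x => run_tm (a := (bits x).map id)
    (b := (bits _).map id) (by
      rw [List.map_id, List.map_id]
      refine (h x).mono (le_trans ?_ (k _ _))
      simp only [eval_comp, eval_mul, eval_C, eval_X, sz_pair, sz_nat]
      refine ev_mono _ ?_
      generalize 2 ^ (2 * tt x.1.length) = a
      generalize 2 ^ (2 * a) = b
      generalize 2 ^ (_ * _) = c
      unfold sz; omega), fun x ⟨n, e⟩ => ?_⟩
  have t0 : 0 < tt x.1.length := by unfold tt; positivity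
  simp only []
  generalize hR : 2 ^ (2 * 2 ^ (2 * tt x.1.length)) = R
  generalize ha : 2 ^ (_ * _) = a
  obtain ⟨i1, i2, i3⟩ := stage_inv (w := wt x.1 x.2) (R := R) (a := a) t0 (x.2.length / 3)
  have := tri_ok (P := x.2) i2 i3
  rw [i1] at this
  refine ⟨by simpa [e] using this.1, fun Q b => ?_⟩
  obtain ⟨z, z1, z2, z3, z4⟩ := to_slots (A := x.1) (P := x.2) b
  exact z4.trans ((stage_ok t0 hR.le (ha ▸ pw (Nat.le_add_right _ _) (Nat.le_add_left _ _)) _ z
    (by omega) z2 z3).trans this.2)

end Pool.Agent.Results.MP_95c4c5_lc.FPT
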